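import Mathlib

set_option autoImplicit false

namespace Pool.Agent.Results.MP_22c7c2_gt.Counter

open Set Filter Topology TopologicalSpace

universe v

/-- absolute `H`-closedness of the operation `m` -/
def AbsH {X : Type} [TopologicalSpace X] (m : X → X → X) : Prop :=
  ∀ (Y : Type v) [TopologicalSpace Y] [Semigroup Y] [ContinuousMul Y] [T2Space Y] (h : X → Y), Continuous h →
    (∀ x y, h (m x y) = h x * h y) → IsClosed (range h)

def X : Type := {x : ℕ → ℕ∞ // ∃ k, ∀ n, x n = ⊤ ↔ n < k}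

noncomputable def m (x y : X) : X := ⟨fun n => max (x.1 n) (y.1 n), by
  obtain ⟨k, hk⟩ := x.2
  obtain ⟨l, hl⟩ := y.2
  exact ⟨max k l, fun n => by rw [max_eq_top, hk, hl, lt_max_iff]⟩⟩

def A (n a : ℕ) : Set X := {x | x.1 n = a}
def B (n M : ℕ) : Set X := {x | M ≤ x.1 n ∧ x.1 (n + 1) ≠ ⊤}

instance : TopologicalSpace X := generateFrom {S | (∃ n a, S = A n a) ∨ ∃ n M, S = B n M}

theorem A_open (n a : ℕ) : IsOpen (A n a) := isOpen_generateFrom_of_mem (Or.inl ⟨n, a, rfl⟩)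
theorem B_open (n M : ℕ) : IsOpen (B n M) := isOpen_generateFrom_of_mem (Or.inr ⟨n, M, rfl⟩)

theorem ev_eq {x : X} {n : ℕ} (h : x.1 n ≠ ⊤) : ∀ᶠ y in 𝓝 x, y.1 n = x.1 n := by
  obtain ⟨a, ha⟩ := ENat.ne_top_iff_exists.1 h
  filter_upwards [(A_open n a).mem_nhds ha.symm] with y hy
  exact ha ▸ hy

theorem tendsto_X {ι : Type*} {F : Filter ι} {f : ι → X} {x : X} (h1 : ∀ n, x.1 n ≠ ⊤ → ∀ᶠ i in F, (f i).1 n = x.1 n)
    (h2 : ∀ n, x.1 n = ⊤ → x.1 (n + 1) ≠ ⊤ → ∀ M : ℕ, ∀ᶠ i in F, M ≤ (f i).1 n) : Tendsto f F (𝓝 x) := by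
  refine tendsto_nhds_generateFrom_iff.2 ?_
  rintro _ (⟨n, a, rfl⟩ | ⟨n, M, rfl⟩) h
  · exact (h1 n (h ▸ ENat.coe_ne_top a :)).mono fun i hi => hi.trans h
  · have h3 : ∀ᶠ i in F, M ≤ (f i).1 n := by
      by_cases h4 : x.1 n = ⊤
      · exact h2 n h4 h.2 M
      · exact (h1 n h4).mono fun i hi => hi ▸ h.1
    filter_upwards [h3, h1 _ h.2] with i h4 h5
    exact ⟨h4, h5 ▸ h.2⟩

theorem sep {x y : X} {n : ℕ} (hx : x.1 n ≠ ⊤) (hy : y.1 n = ⊤) :
    ∃ u v : Set X, IsOpen u ∧ IsOpen v ∧ x ∈ u ∧ y ∈ v ∧ Disjoint u v := by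
  obtain ⟨k, hk⟩ := x.2
  obtain ⟨l, hl⟩ := y.2
  have h1 := (hl n).1 hy
  have h2 := mt (hk n).2 hx
  obtain ⟨l, rfl⟩ : ∃ j, l = j + 1 := ⟨l - 1, by omega⟩
  obtain ⟨a, ha⟩ := ENat.ne_top_iff_exists.1 (mt (hk l).1 (by omega))
  refine ⟨A l a, B l (a + 1), A_open _ _, B_open _ _, ha.symm, ⟨((hl l).2 l.lt_succ_self).symm ▸ le_top,
    mt (hl _).1 (lt_irrefl _)⟩, disjoint_left.2 fun z h3 h4 => ?_⟩
  have h5 := h4.1.trans_eq h3
  norm_cast at h5
  omega

instance : T2Space X := ⟨fun x y h => by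
  obtain ⟨n, hn⟩ : ∃ n, x.1 n ≠ y.1 n := by_contra fun h1 => h (Subtype.ext (funext fun n => by_contra fun h2 => h1 ⟨n, h2⟩))
  by_cases hx : x.1 n = ⊤
  · obtain ⟨u, v, h1, h2, h3, h4, h5⟩ := sep (fun h => hn (hx.trans h.symm)) hx
    exact ⟨v, u, h2, h1, h4, h3, h5.symm⟩
  by_cases hy : y.1 n = ⊤
  · exact sep hx hy
  obtain ⟨a, ha⟩ := ENat.ne_top_iff_exists.1 hx
  obtain ⟨b, hb⟩ := ENat.ne_top_iff_exists.1 hy
  exact ⟨A n a, A n b, A_open _ _, A_open _ _, ha.symm, hb.symm, disjoint_left.2 fun z h1 h2 =>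
    hn (ha.symm.trans ((show z.1 n = a from h1).symm.trans (h2.trans hb)))⟩⟩

theorem cont : Continuous fun p : X × X => m p.1 p.2 := by
  refine continuous_iff_continuousAt.2 fun ⟨x, y⟩ => tendsto_X (fun n h => ?_) fun n h1 h2 M => ?_
  · have h1 := not_or.1 (mt max_eq_top.2 h)
    filter_upwards [continuous_fst.continuousAt.eventually (ev_eq h1.1),
      continuous_snd.continuousAt.eventually (ev_eq h1.2)] with p h2 h3
    exact congrArg₂ max h2 h3
  · have h3 := not_or.1 (mt max_eq_top.2 h2)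
    rcases max_eq_top.1 h1 with h | h
    · filter_upwards [continuous_fst.continuousAt.eventually ((B_open n M).mem_nhds (x := x) ⟨le_top.trans_eq h.symm, h3.1⟩)] with p h4
      exact le_max_of_le_left h4.1
    · filter_upwards [continuous_snd.continuousAt.eventually ((B_open n M).mem_nhds (x := y) ⟨le_top.trans_eq h.symm, h3.2⟩)] with p h4
      exact le_max_of_le_right h4.1

def c (k : ℕ) : X := ⟨fun n => if n < k then ⊤ else 0, k, fun n => by
  beta_reduce
  split_ifs with h <;> simp [h]⟩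

def ap (z : X) (k : ℕ) (hk : ∀ n, z.1 n = ⊤ ↔ n < k + 1) (M : ℕ) : X :=
  ⟨fun n => if n < k then 0 else if n = k then M else z.1 n, 0, fun n => by
    beta_reduce
    split_ifs with h1 h2
    · simp
    · simp
    · rw [hk]; omega⟩

theorem ap_tendsto (z : X) (k : ℕ) (hk : ∀ n, z.1 n = ⊤ ↔ n < k + 1) : Tendsto (ap z k hk) atTop (𝓝 z) := by
  refine tendsto_X (fun n h => Eventually.of_forall fun M => ?_) fun n h1 h2 M => ?_
  · have h1 := mt (hk n).2 h
    simp only [ap, if_neg (show ¬ n < k by omega), if_neg (show ¬ n = k by omega)]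
  · have h3 := (hk n).1 h1
    have h4 := mt (hk _).2 h2
    obtain rfl : n = k := by omega
    exact (eventually_ge_atTop M).mono fun i hi => by simpa [ap] using hi

theorem absH : AbsH.{v} m := by
  intro Y _ _ _ _ h hc hm
  refine isClosed_of_closure_subset fun y hy => ?_
  have : (comap h (𝓝 y)).NeBot := comap_neBot fun t ht => by
    obtain ⟨_, h1, x, rfl⟩ := mem_closure_iff_nhds.1 hy t ht
    exact ⟨x, h1⟩
  let U := Ultrafilter.of (comap h (𝓝 y))
  have hU : Tendsto h U (𝓝 y) := tendsto_iff_comap.2 (Ultrafilter.of_le _)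
  let T : Set ℕ := {n | ∀ M : ℕ, ∀ᶠ x in (U : Filter X), (M : ℕ∞) ≤ x.1 n}
  by_cases hT : ∃ k, ∀ n ≥ k, n ∉ T
  · have h1 : ∀ n, ∃ a : ℕ, n ∉ T → ∀ᶠ x in (U : Filter X), x.1 n = (a : ℕ∞) := fun n => by
      by_cases hn : n ∈ T
      · exact ⟨0, fun h => (h hn).elim⟩
      · obtain ⟨M, hM⟩ := not_forall.1 hn
        obtain ⟨a, -, ha⟩ := (Ultrafilter.eventually_exists_mem_iff (finite_Iio M)
          (P := fun (a : ℕ) (x : X) => x.1 n = a)).1 ((Ultrafilter.eventually_not.2 hM).mono fun x hx => by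
            obtain ⟨a, ha⟩ := ENat.ne_top_iff_exists.1 (not_le.1 hx).ne_top
            exact ⟨a, by simpa [← ha] using hx, ha.symm⟩)
        exact ⟨a, fun _ => ha⟩
    choose a ha using h1
    classical
    let ξ : X := ⟨fun n => if n < Nat.find hT then ⊤ else a n, Nat.find hT, fun n => by
      beta_reduce
      split_ifs with h <;> simp [h]⟩
    have h2 : ∀ n, ξ.1 n = ⊤ ↔ n < Nat.find hT := fun n => by
      simp only [ξ]
      split_ifs with h <;> simp [h]
    refine ⟨ξ, tendsto_nhds_unique ((hc.tendsto ξ).comp (tendsto_X (f := id) (fun n h => ?_) fun n h3 h4 => ?_)) hU⟩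
    · have h3 := mt (h2 n).2 h
      exact (ha n (Nat.find_spec hT n (not_lt.1 h3))).mono fun x hx => hx.trans (if_neg h3).symm
    · by_contra h5
      refine Nat.find_min hT ((h2 n).1 h3) fun j hj => ?_
      rcases hj.eq_or_lt with rfl | hj
      · exact h5
      · exact Nat.find_spec hT j ((not_lt.1 (mt (h2 _).2 h4)).trans hj)
  push Not at hT
  have h1 : ∀ n ∈ T, y * h (c (n + 1)) = y := fun n hn => by
    have hk : ∀ j, (c (n + 1)).1 j = ⊤ ↔ j < n + 1 := fun j => by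
      simp only [c]
      split_ifs with h <;> simp [h]
    refine (isClosed_eq (continuous_const.mul continuous_id) continuous_const).mem_of_tendsto
      ((hc.tendsto _).comp (ap_tendsto _ n hk)) (Eventually.of_forall fun M => ?_)
    refine tendsto_nhds_unique (hU.mul_const _) (hU.congr' ((hn M).mono fun x hx => ?_))
    show h x = h x * h _
    rw [← hm]
    refine congrArg h (Subtype.ext (funext fun j => (max_eq_left ?_).symm))
    simp only [ap, c]
    split_ifs with h1 h2 h3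
    exacts [zero_le, h2 ▸ hx, by omega, zero_le]
  by_contra h2
  obtain ⟨V, W, hV, hW, h3, h4, h5⟩ := t2_separation (show y ≠ h (c 0) from fun e => h2 ⟨_, e.symm⟩)
  have h6 : ∀ j, ∃ z : X, h z ∈ V ∧ ∀ i < j, z.1 i = 0 := fun j => by
    obtain ⟨n, hn, h6⟩ := hT j
    obtain ⟨x, hx⟩ := ((hU.mul_const (h (c (n + 1)))).eventually (hV.mem_nhds ((h1 n h6).symm ▸ h3))).exists
    rw [← hm] at hx
    obtain ⟨k, hk⟩ := (m x (c (n + 1))).2
    have h7 : n < k := (hk n).1 (by simp [m, c])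
    obtain ⟨k, rfl⟩ : ∃ i, k = i + 1 := ⟨k - 1, by omega⟩
    obtain ⟨M, hM⟩ := (((hc.tendsto _).comp (ap_tendsto _ k hk)).eventually (hV.mem_nhds hx)).exists
    exact ⟨_, hM, fun i hi => if_pos (by omega)⟩
  choose z h7 h8 using h6
  have h9 : Tendsto z atTop (𝓝 (c 0)) := tendsto_X (fun n _ => (eventually_gt_atTop n).mono fun j hj => by
    simp [h8 j n hj, c]) fun n h => by simp [c] at h
  obtain ⟨j, hj⟩ := (((hc.tendsto _).comp h9).eventually (hW.mem_nhds h4)).exists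
  exact disjoint_left.1 h5 (h7 j) hj

/-- the negated form of Q1: an absolutely `H`-closed semilattice with a nonempty chain without any lower bound -/
theorem result : ∃ (X : Type) (_ : TopologicalSpace X) (m : X → X → X), T2Space X ∧
    (Continuous fun p : X × X => m p.1 p.2) ∧ (∀ x y z, m (m x y) z = m x (m y z)) ∧ (∀ x y, m x y = m y x) ∧
    (∀ x, m x x = x) ∧ AbsH.{v} m ∧ ∃ C : Set X, C.Nonempty ∧ (∀ x ∈ C, ∀ y ∈ C, m x y = x ∨ m y x = y) ∧
      ¬ ∃ b, ∀ x ∈ C, m b x = b := by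
  refine ⟨X, inferInstance, m, inferInstance, cont, fun x y z => Subtype.ext (funext fun n => max_assoc _ _ _),
    fun x y => Subtype.ext (funext fun n => max_comm _ _), fun x => Subtype.ext (funext fun n => max_self _), absH,
    range c, range_nonempty c, ?_, fun ⟨b, hb⟩ => ?_⟩
  · have h : ∀ i j, i ≤ j → m (c j) (c i) = c j := fun i j h => Subtype.ext (funext fun n => max_eq_left (by
      simp only [c]
      split_ifs with h1 h2
      exacts [le_rfl, by omega, zero_le, le_rfl]))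
    rintro _ ⟨i, rfl⟩ _ ⟨j, rfl⟩
    exact (le_total j i).imp (h j i) (h i j)
  · obtain ⟨k, hk⟩ := b.2
    have h := congrFun (congrArg Subtype.val (hb _ ⟨k + 1, rfl⟩)) k
    exact lt_irrefl k ((hk k).1 (by simpa [m, c] using h.symm))

end Pool.Agent.Results.MP_22c7c2_gt.Counter
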